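import Pool.Agent.Helper10.CR.Goals2

/-!
# Project CR (MP_ca5fc5_al), packet TII: the transfer data in case II
-/

universe u

namespace Pool.Agent.Helper94.CR

open Pool.Agent.Helper10.CR
open Pool.Agent.Helper10.Width Pool.Agent.Helper72.Width Pool.Agent.Helper78.SD
open scoped QuadraticAlgebra
open IsLocalRing

/-- the condition `(r x) t = 0` -/
def al0 {R : Type u} [CommRing R] (a : R) : PP R where
  n := 1
  k := 0
  a := fun _ => a
  b := fun _ => Fin.elim0

theorem mem_al0 {R : Type u} [CommRing R] {a : R} {T : Type u} [AddCommGroup T] [Module R T]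
    {t : T} : t ∈ (al0 a).sol T ↔ a • t = 0 := by
  rw [PP.mem_sol]
  constructor
  · rintro ⟨y, hy⟩
    have h : a • t + ∑ j : Fin 0, (Fin.elim0 j : R) • y j = 0 := hy (0 : Fin 1)
    simpa using h
  · intro h
    refine ⟨Fin.elim0, fun i => ?_⟩
    show a • t + ∑ j : Fin 0, (Fin.elim0 j : R) • (Fin.elim0 j : T) = 0
    simpa using h

/-- coefficients of the free variables -/
def kA {R : Type u} [CommRing R] (r x x' : R) : Fin 7 → Fin 7 → R :=
  ![![-(r * x), 0, 0, 0, 0, 0, 0], ![0, -(r * x), 0, 0, 0, 0, 0], ![0, 0, 0, 0, 0, 0, 0],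
    ![0, 0, r * x, r * x', 0, 0, 0], ![0, 0, 0, 0, -(r * x), 0, 0], ![0, 0, 0, 0, 0, 0, 0],
    ![0, 0, 0, 0, 0, -(r * x), -(r * x')]]

/-- coefficients of the bound variables -/
def kB {R : Type u} [CommRing R] (r x x' α β : R) : Fin 7 → Fin 4 → R :=
  ![![r * x, 0, 0, 0], ![0, r * x, 0, 0], ![x', -x, 0, 0], ![0, 0, 0, 0], ![0, 0, r * x, 0],
    ![0, 0, x', -x], ![0, 0, α * x + β * x', -x']]

/-- the condition for the relation -/
def kap {R : Type u} [CommRing R] (r x x' α β : R) : NPP R 7 where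
  m := 7
  k := 4
  a := kA r x x'
  b := kB r x x' α β

theorem mem_kap {R : Type u} [CommRing R] {r x x' α β : R} {T : Type u} [AddCommGroup T]
    [Module R T] {t : Fin 7 → T} : t ∈ (kap r x x' α β).sol T ↔
      (∃ y y', (r * x) • (y - t 0) = 0 ∧ (r * x) • (y' - t 1) = 0 ∧ x' • y - x • y' = 0) ∧
      (r * x) • t 2 + (r * x') • t 3 = 0 ∧
      ∃ y y', (r * x) • (y - t 4) = 0 ∧ x' • y - x • y' = 0 ∧
        (α * x + β * x') • y - x' • y' = (r * x) • t 5 + (r * x') • t 6 := by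
  have key : t ∈ (kap r x x' α β).sol T ↔ ∃ y : Fin 4 → T,
      ∀ i : Fin 7, ∑ j : Fin 7, kA r x x' i j • t j + ∑ l : Fin 4, kB r x x' α β i l • y l = 0 :=
    Iff.rfl
  rw [key]
  constructor
  · rintro ⟨y, hy⟩
    have h0 := hy 0
    have h1 := hy 1
    have h2 := hy 2
    have h3 := hy 3
    have h4 := hy 4
    have h5 := hy 5
    have h6 := hy 6
    simp only [kA, kB, Fin.sum_univ_seven, Fin.sum_univ_four] at h0 h1 h2 h3 h4 h5 h6
    simp at h0 h1 h2 h3 h4 h5 h6
    refine ⟨⟨y 0, y 1, ?_, ?_, ?_⟩, ?_, y 2, y 3, ?_, ?_, ?_⟩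
    · rw [smul_sub, ← h0]; abel
    · rw [smul_sub, ← h1]; abel
    · rw [← h2]; abel
    · exact h3
    · rw [smul_sub, ← h4]; abel
    · rw [← h5]; abel
    · rw [← sub_eq_zero, ← h6]; abel
  · rintro ⟨⟨y0, y1, h0, h1, h2⟩, h3, y2, y3, h4, h5, h6⟩
    refine ⟨![y0, y1, y2, y3], fun i => ?_⟩
    fin_cases i
    all_goals simp only [kA, kB, Fin.sum_univ_seven, Fin.sum_univ_four]
    all_goals simp
    · rw [← h0, smul_sub]; abel
    · rw [← h1, smul_sub]; abel
    · rw [← h2]; abel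
    · exact h3
    · rw [← h4, smul_sub]; abel
    · rw [← h5]; abel
    · rw [← sub_eq_zero] at h6
      rw [← h6]; abel

theorem split7 {V : Type u} [AddCommGroup V] (w : Fin 7 → V) :
    w = ![w 0, w 1, 0, 0, 0, 0, 0] + ![0, 0, w 2, w 3, 0, 0, 0] +
      ![0, 0, 0, 0, w 4, w 5, w 6] := by
  funext i
  fin_cases i
  · show w 0 = w 0 + 0 + 0
    abel
  · show w 1 = w 1 + 0 + 0
    abel
  · show w 2 = 0 + w 2 + 0
    abel
  · show w 3 = 0 + w 3 + 0
    abel
  · show w 4 = 0 + 0 + w 4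
    abel
  · show w 5 = 0 + 0 + w 5
    abel
  · show w 6 = 0 + 0 + w 6
    abel

theorem goalTII : GoalTII.{u} := by
  intro hLift hLAII hNF hExII hAtII hEsp R _ _ r x x' α β h
  have hirr : ∀ l : ResidueField R, l ^ 2 ≠ residue R α + residue R β * l := by
    intro l hl
    obtain ⟨l, rfl⟩ := residue_surjective l
    apply h.irr l
    rw [← residue_eq_zero_iff, map_sub, map_pow, map_add, map_mul, hl, sub_self]
  choose S hS using fun X : Models (PII (residue R α) (residue R β)) =>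
    hExII (ResidueField R) (residue R α) (residue R β) hirr X.1 X.2
  refine ⟨fun X => (ctxII h).tr X.1 (S X), al0 (r * x), kap r x x' α β, ?_, ?_, ?_⟩
  · intro X t
    rw [mem_al0]
    exact (hAtII R r x x' α β h X.1 X.2 (S X) (hS X)).1 t
  · intro X t
    obtain ⟨_, a2, a3, a4⟩ := hAtII R r x x' α β h X.1 X.2 (S X) (hS X)
    rw [mem_kap]
    have e1 := a3 (t 0) (t 1)
    have e2 := a2 (t 2) (t 3)
    have e3 := a4 (t 4) (t 5) (t 6)
    rw [e1, e2, e3]
    set w : Fin 7 → X.1.V := fun i => ((ctxII h).tr X.1 (S X)).π (t i) with hw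
    have hsum := split7 w
    constructor
    · rintro ⟨h1, h2, h3⟩
      rw [hsum]
      exact add_mem (add_mem h1 h2) h3
    · intro hwm
      obtain ⟨h1, h2⟩ := X.2.prod w hwm
      refine ⟨h1, h2, ?_⟩
      have h3 : ![0, 0, 0, 0, w 4, w 5, w 6] =
          w - ![w 0, w 1, 0, 0, 0, 0, 0] - ![0, 0, w 2, w 3, 0, 0, 0] := by
        rw [sub_sub, eq_sub_iff_add_eq, add_comm]
        exact hsum.symm
      have h4 := sub_mem (sub_mem hwm h1) h2
      rw [← h3] at h4
      exact h4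
  · intro θ
    obtain ⟨φ, hφ⟩ := hLAII hNF (ResidueField R) (residue R α) (residue R β) hirr θ.n
      ((ctxII h).EA θ) ((ctxII h).ED θ) (hEsp.2 R r x x' α β h θ).1 (hEsp.2 R r x x' α β h θ).2
    refine ⟨φ, fun X v => ?_⟩
    have h1 := hφ X.1 X.2
      ((S X).ιD →₀ QuadraticAlgebra (ResidueField R) (residue R α) (residue R β))
      ((S X).e.toLinearMap.comp (LinearMap.inr _ _ _))
      ((LinearMap.proj 0).comp (S X).γ) ((LinearMap.proj 1).comp (S X).γ)
      (fun m => (hS X).dl m) (fun y y' hy => (hS X).hD y y' hy) (fun m => (hS X).g m) v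
    have h2 := hLift R (ResidueField R) (QuadraticAlgebra R α β)
      (QuadraticAlgebra (ResidueField R) (residue R α) (residue R β)) (ctxII h) 7 X.1 (S X) θ v
    rw [h1, h2]
    constructor
    · rintro ⟨P, hP, Q, hQ, hv, hc⟩
      refine ⟨P, hP, Q, hQ, hv, fun c => ?_⟩
      exact ((hS X).wr _).mpr (hc c)
    · rintro ⟨P, hP, Q, hQ, hv, hc⟩
      refine ⟨P, hP, Q, hQ, hv, fun c => ?_⟩
      exact ((hS X).wr _).mp (hc c)

end Pool.Agent.Helper94.CR
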