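import Pool.Agent.Helper88.CR.GoalsA
import Pool.Agent.Helper73.RR.RK

/-! # CR packet BK: rough integers in a class, weighted by a function of small variation -/

set_option autoImplicit false

open Finset Filter Topology

open scoped Classical ArithmeticFunction

namespace Pool.Agent.Helper94.CR

open Pool.Agent.Helper88.CR

/-! ### Abel summation -/

theorem abel (Y : ℕ) (a f : ℕ → ℂ) (j : ℕ) :
    ∑ n ∈ Ioc Y (Y + 1 + j), a n * f n = (∑ n ∈ Ioc Y (Y + 1 + j), a n) * f (Y + 1 + j) -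
      ∑ m ∈ Ioc Y (Y + j), (∑ n ∈ Ioc Y m, a n) * (f (m + 1) - f m) := by
  induction j with
  | zero => simp
  | succ j ih =>
    have e1 : Y + 1 + (j + 1) = (Y + 1 + j) + 1 := by ring
    have e2 : Y + (j + 1) = (Y + j) + 1 := by ring
    have e3 : Y + j + 1 = Y + 1 + j := by ring
    rw [e1, e2, Finset.sum_Ioc_succ_top (by omega), Finset.sum_Ioc_succ_top (by omega) a,
      Finset.sum_Ioc_succ_top (by omega) (fun m => (∑ n ∈ Ioc Y m, a n) * (f (m + 1) - f m)), ih, e3]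
    ring

theorem cnt {m : ℕ} (hm : 1 ≤ m) (c Y t : ℕ) (ht : Y ≤ t) :
    |(((Ioc Y t).filter (fun n => n ≡ c [MOD m])).card : ℝ) - ((t : ℝ) - Y) / m| ≤ 1 := by
  have h := Nat.Ioc_filter_modEq_card Y t (r := m) (by omega) c
  have hm' : (0 : ℚ) < m := by exact_mod_cast hm
  have h2 : ((Y : ℚ) - c) / m ≤ ((t : ℚ) - c) / m := by
    apply div_le_div_of_nonneg_right _ hm'.le
    have : (Y : ℚ) ≤ t := by exact_mod_cast ht
    linarith
  rw [max_eq_left (by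
    have := Int.floor_le_floor h2
    omega)] at h
  have h3 := Int.floor_le (((t : ℚ) - c) / m)
  have h4 := Int.lt_floor_add_one (((t : ℚ) - c) / m)
  have h5 := Int.floor_le (((Y : ℚ) - c) / m)
  have h6 := Int.lt_floor_add_one (((Y : ℚ) - c) / m)
  have h7 : ((((Ioc Y t).filter (fun n => n ≡ c [MOD m])).card : ℤ) : ℚ) =
      (⌊((t : ℚ) - c) / m⌋ : ℚ) - (⌊((Y : ℚ) - c) / m⌋ : ℚ) := by
    rw [← Int.cast_sub]
    exact congrArg _ h
  have h8 : |((((Ioc Y t).filter (fun n => n ≡ c [MOD m])).card : ℕ) : ℚ) - ((t : ℚ) - Y) / m|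
      ≤ 1 := by
    have h9 : ((t : ℚ) - Y) / m = ((t : ℚ) - c) / m - ((Y : ℚ) - c) / m := by ring
    rw [Int.cast_natCast] at h7
    rw [h7, h9, abs_le]
    constructor <;> linarith
  have h10 : (((|((((Ioc Y t).filter (fun n => n ≡ c [MOD m])).card : ℕ) : ℚ) -
      ((t : ℚ) - Y) / m| : ℚ)) : ℝ) ≤ ((1 : ℚ) : ℝ) := Rat.cast_le.mpr h8
  push_cast at h10
  exact h10

theorem prog {m : ℕ} (hm : 1 ≤ m) (c : ℕ) {Y : ℕ} (hY : 1 ≤ Y) {f : ℕ → ℂ} {B τ : ℝ} (hB : 0 ≤ B)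
    (hτ : 0 ≤ τ) (hf : ∀ n ∈ Ioc Y (2 * Y), ‖f n‖ ≤ B)
    (hv : ∀ n ∈ Ioo Y (2 * Y), ‖f (n + 1) - f n‖ ≤ τ * B / Y) :
    ‖∑ n ∈ (Ioc Y (2 * Y)).filter (fun n => n ≡ c [MOD m]), f n -
      ((1 / (m : ℝ) : ℝ) : ℂ) * ∑ n ∈ Ioc Y (2 * Y), f n‖ ≤ (1 + τ) * B := by
  let a : ℕ → ℂ := fun n => (if n ≡ c [MOD m] then 1 else 0) - ((1 / (m : ℝ) : ℝ) : ℂ)
  have hA : ∀ t, Y ≤ t → ‖∑ n ∈ Ioc Y t, a n‖ ≤ 1 := by
    intro t ht
    have h1 : ∑ n ∈ Ioc Y t, a n =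
        (((((Ioc Y t).filter (fun n => n ≡ c [MOD m])).card : ℝ) - ((t : ℝ) - Y) / m : ℝ) : ℂ) := by
      simp only [a, Finset.sum_sub_distrib, Finset.sum_ite, Finset.sum_const_zero, add_zero,
        Finset.sum_const, Nat.card_Ioc, nsmul_eq_mul, mul_one]
      rw [Nat.cast_sub ht]
      push_cast
      ring
    rw [h1, Complex.norm_real, Real.norm_eq_abs]
    exact cnt hm c Y t ht
  have e1 : ∑ n ∈ (Ioc Y (2 * Y)).filter (fun n => n ≡ c [MOD m]), f n -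
      ((1 / (m : ℝ) : ℝ) : ℂ) * ∑ n ∈ Ioc Y (2 * Y), f n = ∑ n ∈ Ioc Y (2 * Y), a n * f n := by
    rw [Finset.sum_filter, Finset.mul_sum, ← Finset.sum_sub_distrib]
    refine Finset.sum_congr rfl fun n _ => ?_
    simp only [a]
    split_ifs <;> ring
  have e2 : 2 * Y = Y + 1 + (Y - 1) := by omega
  rw [e1]
  have e3 := abel Y a f (Y - 1)
  rw [← e2] at e3
  rw [e3]
  have hYr : (0 : ℝ) < Y := by exact_mod_cast hY
  calc ‖(∑ n ∈ Ioc Y (2 * Y), a n) * f (2 * Y) -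
        ∑ m ∈ Ioc Y (Y + (Y - 1)), (∑ n ∈ Ioc Y m, a n) * (f (m + 1) - f m)‖
      ≤ ‖(∑ n ∈ Ioc Y (2 * Y), a n) * f (2 * Y)‖ +
        ‖∑ m ∈ Ioc Y (Y + (Y - 1)), (∑ n ∈ Ioc Y m, a n) * (f (m + 1) - f m)‖ := norm_sub_le _ _
    _ ≤ 1 * B + ∑ m ∈ Ioc Y (Y + (Y - 1)), 1 * (τ * B / Y) := by
        refine add_le_add ?_ ?_
        · rw [norm_mul]
          exact mul_le_mul (hA _ (by omega)) (hf _ (by simp; omega)) (norm_nonneg _) zero_le_one
        · refine (norm_sum_le _ _).trans (Finset.sum_le_sum fun m hm' => ?_)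
          rw [Finset.mem_Ioc] at hm'
          rw [norm_mul]
          exact mul_le_mul (hA _ hm'.1.le) (hv _ (by rw [Finset.mem_Ioo]; omega)) (norm_nonneg _)
            zero_le_one
    _ ≤ (1 + τ) * B := by
        rw [Finset.sum_const, Nat.card_Ioc, nsmul_eq_mul]
        have h1 : ((Y + (Y - 1) - Y : ℕ) : ℝ) ≤ Y := by
          have : Y + (Y - 1) - Y ≤ Y := by omega
          exact_mod_cast this
        have h2 : ((Y + (Y - 1) - Y : ℕ) : ℝ) * (1 * (τ * B / Y)) ≤ Y * (1 * (τ * B / Y)) :=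
          mul_le_mul_of_nonneg_right h1 (by positivity)
        have h3 : (Y : ℝ) * (1 * (τ * B / Y)) = τ * B := by
          field_simp
        linarith

/-! ### The sieve -/

theorem crt {q d : ℕ} (h : Nat.Coprime q d) (a : ℕ) :
    ∃ c : ℕ, ∀ n : ℕ, (n ≡ a [MOD q] ∧ d ∣ n) ↔ n ≡ c [MOD q * d] := by
  obtain ⟨c, hc1, hc2⟩ := Nat.chineseRemainder h a 0
  refine ⟨c, fun n => ?_⟩
  constructor
  · rintro ⟨h1, h2⟩
    refine (Nat.modEq_and_modEq_iff_modEq_mul h).mp ⟨h1.trans hc1.symm, ?_⟩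
    exact ((Nat.modEq_zero_iff_dvd).mpr h2).trans hc2.symm
  · intro h1
    obtain ⟨h2, h3⟩ := (Nat.modEq_and_modEq_iff_modEq_mul h).mpr h1
    exact ⟨h2.trans hc1, (Nat.modEq_zero_iff_dvd).mp (h3.trans hc2)⟩

/-- the sum of `(∑_{d ∣ n} l d) f n` over the class -/
theorem siv {q a Y D : ℕ} (hq : 1 ≤ q) (hY : 1 ≤ Y) {f : ℕ → ℂ} {B τ : ℝ} (hB : 0 ≤ B)
    (hτ : 0 ≤ τ) (hf : ∀ n ∈ Ioc Y (2 * Y), ‖f n‖ ≤ B)
    (hv : ∀ n ∈ Ioo Y (2 * Y), ‖f (n + 1) - f n‖ ≤ τ * B / Y) {l : ℕ → ℝ} (hl : ∀ d, |l d| ≤ 1)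
    (hs : ∀ d, l d ≠ 0 → Nat.Coprime q d ∧ d ≤ D) :
    ‖∑ n ∈ (Ioc Y (2 * Y)).filter (fun n => n ≡ a [MOD q]), ((∑ d ∈ n.divisors, l d : ℝ) : ℂ) * f n
      - (((1 / (q : ℝ)) * ∑ d ∈ Icc 1 D, l d / d : ℝ) : ℂ) * ∑ n ∈ Ioc Y (2 * Y), f n‖
      ≤ D * ((1 + τ) * B) := by
  have h1 : ∑ n ∈ (Ioc Y (2 * Y)).filter (fun n => n ≡ a [MOD q]),
      ((∑ d ∈ n.divisors, l d : ℝ) : ℂ) * f n =
      ∑ d ∈ Icc 1 D, (l d : ℂ) * ∑ n ∈ (Ioc Y (2 * Y)).filter (fun n => n ≡ a [MOD q] ∧ d ∣ n),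
        f n := by
    have h2 : ∀ n ∈ (Ioc Y (2 * Y)).filter (fun n => n ≡ a [MOD q]),
        ((∑ d ∈ n.divisors, l d : ℝ) : ℂ) * f n =
        ∑ d ∈ Icc 1 D, (if d ∣ n then (l d : ℂ) * f n else 0) := by
      intro n hn
      have hn1 : 1 ≤ n := by
        have := (Finset.mem_Ioc.mp (Finset.mem_filter.mp hn).1).1
        omega
      have h3 : ∑ d ∈ n.divisors, l d = ∑ d ∈ Icc 1 D, (if d ∣ n then l d else 0) := by
        rw [← Finset.sum_filter]
        symm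
        have hsub : (Icc 1 D).filter (fun d => d ∣ n) ⊆ n.divisors := by
          intro d hd
          rw [Nat.mem_divisors]
          exact ⟨(Finset.mem_filter.mp hd).2, by omega⟩
        refine Finset.sum_subset hsub fun d hd hd' => ?_
        by_contra hne
        apply hd'
        rw [Finset.mem_filter, Finset.mem_Icc]
        have hdd := Nat.mem_divisors.mp hd
        exact ⟨⟨Nat.pos_of_dvd_of_pos hdd.1 hn1, (hs d hne).2⟩, hdd.1⟩
      rw [h3]
      push_cast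
      rw [Finset.sum_mul]
      refine Finset.sum_congr rfl fun d _ => ?_
      split_ifs <;> simp
    rw [Finset.sum_congr rfl h2, Finset.sum_comm]
    refine Finset.sum_congr rfl fun d _ => ?_
    rw [Finset.mul_sum, ← Finset.sum_filter, Finset.filter_filter]
  have h4 : (((1 / (q : ℝ)) * ∑ d ∈ Icc 1 D, l d / d : ℝ) : ℂ) * ∑ n ∈ Ioc Y (2 * Y), f n =
      ∑ d ∈ Icc 1 D, (l d : ℂ) * (((1 / ((q * d : ℕ) : ℝ) : ℝ) : ℂ) *
        ∑ n ∈ Ioc Y (2 * Y), f n) := by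
    generalize ∑ n ∈ Ioc Y (2 * Y), f n = S
    push_cast
    rw [Finset.mul_sum, Finset.sum_mul]
    refine Finset.sum_congr rfl fun d _ => ?_
    rw [one_div, one_div, mul_inv]
    ring
  rw [h1, h4, ← Finset.sum_sub_distrib]
  calc ‖∑ d ∈ Icc 1 D, ((l d : ℂ) * ∑ n ∈ (Ioc Y (2 * Y)).filter
          (fun n => n ≡ a [MOD q] ∧ d ∣ n), f n -
          (l d : ℂ) * (((1 / ((q * d : ℕ) : ℝ) : ℝ) : ℂ) * ∑ n ∈ Ioc Y (2 * Y), f n))‖
      ≤ ∑ d ∈ Icc 1 D, (1 + τ) * B := by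
        refine (norm_sum_le _ _).trans (Finset.sum_le_sum fun d hd => ?_)
        rw [← mul_sub, norm_mul, Complex.norm_real, Real.norm_eq_abs]
        by_cases hld : l d = 0
        · rw [hld, abs_zero, zero_mul]; positivity
        · obtain ⟨hc, -⟩ := hs d hld
          obtain ⟨c, hcr⟩ := crt hc a
          have hd1 : 1 ≤ d := (Finset.mem_Icc.mp hd).1
          have hp := prog (m := q * d) (Nat.mul_pos hq hd1) c hY hB hτ hf hv
          have he : (Ioc Y (2 * Y)).filter (fun n => n ≡ a [MOD q] ∧ d ∣ n) =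
              (Ioc Y (2 * Y)).filter (fun n => n ≡ c [MOD q * d]) :=
            Finset.filter_congr fun n _ => hcr n
          rw [he]
          calc |l d| * _ ≤ 1 * ((1 + τ) * B) :=
                mul_le_mul (hl d) hp (norm_nonneg _) zero_le_one
            _ = (1 + τ) * B := one_mul _
    _ = D * ((1 + τ) * B) := by
        rw [Finset.sum_const, Nat.card_Icc, nsmul_eq_mul]
        simp

/-- the same for `f = 1` -/
theorem siv1 {q a Y D : ℕ} (hq : 1 ≤ q) (hY : 1 ≤ Y) {l : ℕ → ℝ} (hl : ∀ d, |l d| ≤ 1)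
    (hs : ∀ d, l d ≠ 0 → Nat.Coprime q d ∧ d ≤ D) :
    ∑ n ∈ (Ioc Y (2 * Y)).filter (fun n => n ≡ a [MOD q]), ∑ d ∈ n.divisors, l d
      ≤ (1 / (q : ℝ)) * (∑ d ∈ Icc 1 D, l d / d) * Y + D := by
  have h := siv (a := a) (f := fun _ => 1) (B := 1) (τ := 0) hq hY zero_le_one le_rfl
    (fun n _ => by simp) (fun n _ => by simp) hl hs
  have h2 : ∑ n ∈ (Ioc Y (2 * Y)).filter (fun n => n ≡ a [MOD q]),
      ((∑ d ∈ n.divisors, l d : ℝ) : ℂ) * (1 : ℂ)
      - (((1 / (q : ℝ)) * ∑ d ∈ Icc 1 D, l d / d : ℝ) : ℂ) * ∑ n ∈ Ioc Y (2 * Y), (1 : ℂ) =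
      ((∑ n ∈ (Ioc Y (2 * Y)).filter (fun n => n ≡ a [MOD q]), ∑ d ∈ n.divisors, l d -
        (1 / (q : ℝ)) * (∑ d ∈ Icc 1 D, l d / d) * Y : ℝ) : ℂ) := by
    have h3 : ∑ n ∈ Ioc Y (2 * Y), (1 : ℂ) = (Y : ℂ) := by
      rw [Finset.sum_const, Nat.card_Ioc, nsmul_eq_mul, mul_one]
      congr 1
      omega
    rw [h3]
    push_cast
    simp only [mul_one]
  rw [h2, Complex.norm_real, Real.norm_eq_abs] at h
  have := (abs_le.mp h).2
  linarith

/-- the primes up to `z` not dividing `q` -/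
noncomputable def PQ (z q : ℕ) : Finset ℕ := (Icc 1 z).filter (fun p => p.Prime ∧ ¬ p ∣ q)

theorem tot_eq {q : ℕ} (hq : 1 ≤ q) :
    (Nat.totient q : ℝ) / q = ∏ p ∈ q.primeFactors, (1 - 1 / (p : ℝ)) := by
  have h := Nat.totient_eq_mul_prod_factors q
  have h2 : ((Nat.totient q : ℕ) : ℝ) = (q : ℝ) * ∏ p ∈ q.primeFactors, (1 - (p : ℝ)⁻¹) := by
    have h3 := congrArg (fun r : ℚ => (r : ℝ)) h
    push_cast at h3
    exact h3
  have hq' : (q : ℝ) ≠ 0 := by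
    have : (0 : ℝ) < q := by exact_mod_cast hq
    exact this.ne'
  rw [h2, mul_div_cancel_left₀ _ hq']
  exact Finset.prod_congr rfl fun p _ => by rw [one_div]

theorem fac01 {p : ℕ} (hp : p.Prime) : 0 < 1 - 1 / (p : ℝ) ∧ 1 - 1 / (p : ℝ) ≤ 1 := by
  have h2 : (2 : ℝ) ≤ p := by exact_mod_cast hp.two_le
  constructor
  · have : 1 / (p : ℝ) ≤ 1 / 2 := one_div_le_one_div_of_le (by norm_num) h2
    linarith
  · have : 0 ≤ 1 / (p : ℝ) := by positivity
    linarith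

theorem V_pos (z q : ℕ) : 0 < ∏ p ∈ PQ z q, (1 - 1 / (p : ℝ)) :=
  Finset.prod_pos fun p hp => (fac01 (Finset.mem_filter.mp hp).2.1).1

theorem Wz_pos (z : ℕ) : 0 < Wz z :=
  Finset.prod_pos fun p hp => (fac01 (Finset.mem_filter.mp hp).2).1

theorem V_le {z q : ℕ} (hq : 1 ≤ q) :
    (1 / (q : ℝ)) * ∏ p ∈ PQ z q, (1 - 1 / (p : ℝ)) ≤ Wz z / (Nat.totient q : ℝ) := by
  have hq' : (0 : ℝ) < q := by exact_mod_cast hq
  have ht : (0 : ℝ) < Nat.totient q := by exact_mod_cast Nat.totient_pos.mpr hq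
  rw [le_div_iff₀ ht]
  have h1 : (1 / (q : ℝ)) * (∏ p ∈ PQ z q, (1 - 1 / (p : ℝ))) * (Nat.totient q : ℝ) =
      (∏ p ∈ PQ z q, (1 - 1 / (p : ℝ))) * ((Nat.totient q : ℝ) / q) := by ring
  rw [h1, tot_eq hq]
  have hd : Disjoint (PQ z q) q.primeFactors := by
    rw [Finset.disjoint_left]
    intro p hp hp'
    exact (Finset.mem_filter.mp hp).2.2 (Nat.dvd_of_mem_primeFactors hp')
  rw [← Finset.prod_union hd]
  have hsub : (Icc 1 z).filter Nat.Prime ⊆ PQ z q ∪ q.primeFactors := by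
    intro p hp
    obtain ⟨hp1, hp2⟩ := Finset.mem_filter.mp hp
    rw [Finset.mem_union]
    by_cases hpq : p ∣ q
    · exact Or.inr (Nat.mem_primeFactors.mpr ⟨hp2, hpq, by omega⟩)
    · exact Or.inl (Finset.mem_filter.mpr ⟨hp1, hp2, hpq⟩)
  rw [← Finset.prod_sdiff hsub]
  have hpr : ∀ p ∈ PQ z q ∪ q.primeFactors, p.Prime := by
    intro p hp
    rcases Finset.mem_union.mp hp with h | h
    · exact (Finset.mem_filter.mp h).2.1
    · exact Nat.prime_of_mem_primeFactors h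
  have h2 : ∏ p ∈ (PQ z q ∪ q.primeFactors) \ (Icc 1 z).filter Nat.Prime, (1 - 1 / (p : ℝ)) ≤ 1 :=
    Finset.prod_le_one (fun p hp => (fac01 (hpr p (Finset.mem_sdiff.mp hp).1)).1.le)
      (fun p hp => (fac01 (hpr p (Finset.mem_sdiff.mp hp).1)).2)
  calc _ ≤ 1 * Wz z := mul_le_mul_of_nonneg_right h2 (Wz_pos z).le
    _ = Wz z := one_mul _

theorem V_eq {z q : ℕ} (hq : 1 ≤ q) (hqz : q ≤ z) :
    (1 / (q : ℝ)) * ∏ p ∈ PQ z q, (1 - 1 / (p : ℝ)) = Wz z / (Nat.totient q : ℝ) := by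
  have hq' : (0 : ℝ) < q := by exact_mod_cast hq
  have ht : (0 : ℝ) < Nat.totient q := by exact_mod_cast Nat.totient_pos.mpr hq
  rw [eq_div_iff ht.ne']
  have h1 : (1 / (q : ℝ)) * (∏ p ∈ PQ z q, (1 - 1 / (p : ℝ))) * (Nat.totient q : ℝ) =
      (∏ p ∈ PQ z q, (1 - 1 / (p : ℝ))) * ((Nat.totient q : ℝ) / q) := by ring
  rw [h1, tot_eq hq]
  have hd : Disjoint (PQ z q) q.primeFactors := by
    rw [Finset.disjoint_left]
    intro p hp hp'
    exact (Finset.mem_filter.mp hp).2.2 (Nat.dvd_of_mem_primeFactors hp')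
  rw [← Finset.prod_union hd]
  have he : PQ z q ∪ q.primeFactors = (Icc 1 z).filter Nat.Prime := by
    ext p
    rw [Finset.mem_union, PQ, Finset.mem_filter, Finset.mem_filter, Finset.mem_Icc,
      Nat.mem_primeFactors]
    constructor
    · rintro (⟨h1, h2, h3⟩ | ⟨h1, h2, h3⟩)
      · exact ⟨h1, h2⟩
      · exact ⟨⟨h1.one_le, (Nat.le_of_dvd (by omega) h2).trans hqz⟩, h1⟩
    · rintro ⟨h1, h2⟩
      by_cases hpq : p ∣ q
      · exact Or.inr ⟨h2, hpq, by omega⟩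
      · exact Or.inl ⟨h1, h2, hpq⟩
  rw [he]
  rfl

theorem rg_iff {z q a n : ℕ} (hc : Nat.Coprime a q) (hn : n ≠ 0) (hna : n ≡ a [MOD q]) :
    rg z n ↔ ∀ p ∈ PQ z q, ¬ p ∣ n := by
  constructor
  · intro h p hp hpn
    obtain ⟨h1, h2, h3⟩ := Finset.mem_filter.mp hp
    have := h.2 p h2 hpn
    have := (Finset.mem_Icc.mp h1).2
    omega
  · intro h
    refine ⟨hn, fun p hp hpn => ?_⟩
    by_contra hz
    push Not at hz
    by_cases hpq : p ∣ q
    · have h1 : p ∣ a := by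
        have h2 : n ≡ a [MOD p] := hna.of_dvd hpq
        exact (h2.dvd_iff dvd_rfl).mp hpn
      have h2 := Nat.dvd_gcd h1 hpq
      rw [hc] at h2
      exact hp.one_lt.ne' (Nat.dvd_one.mp h2)
    · exact h p (Finset.mem_filter.mpr ⟨Finset.mem_Icc.mpr ⟨hp.one_le, hz⟩, hp, hpq⟩) hpn

theorem rg_imp {z z' q n : ℕ} (hz : z' ≤ z) (h : rg z n) : ∀ p ∈ PQ z' q, ¬ p ∣ n := by
  intro p hp hpn
  obtain ⟨h1, h2, h3⟩ := Finset.mem_filter.mp hp
  have := h.2 p h2 hpn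
  have := (Finset.mem_Icc.mp h1).2
  omega

theorem cop {z q d : ℕ} (h : d ∣ ∏ p ∈ PQ z q, p) : Nat.Coprime q d := by
  refine Nat.Coprime.coprime_dvd_right h ?_
  refine Nat.Coprime.prod_right fun p hp => ?_
  obtain ⟨h1, h2, h3⟩ := Finset.mem_filter.mp hp
  exact ((Nat.Prime.coprime_iff_not_dvd h2).mpr h3).symm

/-- case (ii) -/
theorem bk2 {CF : ℝ} (hCF : 0 < CF) (hFW : ∀ z b : ℕ, 1 ≤ z → ∀ P : Finset ℕ,
  (∀ p ∈ P, p.Prime ∧ p ≤ z) → ∃ l l' : ℕ → ℝ, (∀ d, |l d| ≤ 1 ∧ |l' d| ≤ 1) ∧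
    (∀ d, l d ≠ 0 ∨ l' d ≠ 0 → d ∣ ∏ p ∈ P, p ∧ d ≤ z ^ (4 * b + 6)) ∧
    (∀ n : ℕ, 1 ≤ n →
      0 ≤ ∑ d ∈ n.divisors, l d - (if ∀ p ∈ P, ¬ p ∣ n then 1 else 0) ∧
      ∑ d ∈ n.divisors, l d - (if ∀ p ∈ P, ¬ p ∣ n then 1 else 0) ≤ ∑ d ∈ n.divisors, l' d) ∧
    ∏ p ∈ P, (1 - 1 / (p : ℝ)) ≤ ∑ d ∈ Icc 1 (z ^ (4 * b + 6)), l d / d ∧
    ∑ d ∈ Icc 1 (z ^ (4 * b + 6)), l d / d
      ≤ (1 + CF * Real.exp (-b)) * ∏ p ∈ P, (1 - 1 / (p : ℝ)) ∧
    ∑ d ∈ Icc 1 (z ^ (4 * b + 6)), l' d / d ≤ CF * Real.exp (-b) * ∏ p ∈ P, (1 - 1 / (p : ℝ)))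
    {z q a Y : ℕ} (b : ℕ) (hz : 2 ≤ z) (hq : 1 ≤ q) (hqz : q ≤ z) (hc : Nat.Coprime a q)
    (hY : 1 ≤ Y) {f : ℕ → ℂ} {B τ : ℝ} (hB : 0 ≤ B)
    (hτ : 0 ≤ τ) (hf : ∀ n ∈ Ioc Y (2 * Y), ‖f n‖ ≤ B)
    (hv : ∀ n ∈ Ioo Y (2 * Y), ‖f (n + 1) - f n‖ ≤ τ * B / Y) :
    ‖∑ n ∈ (Ioc Y (2 * Y)).filter (fun n => n ≡ a [MOD q] ∧ rg z n), f n
      - ((Wz z / (Nat.totient q : ℝ) : ℝ) : ℂ) * ∑ n ∈ Ioc Y (2 * Y), f n‖ ≤
    2 * CF * Real.exp (-b) * (Wz z / (Nat.totient q : ℝ)) * Y * B +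
      2 * (1 + τ) * B * ((z ^ (4 * b + 6) : ℕ) : ℝ) := by
  obtain ⟨l, l', hl, hs, h1, h2, h3, h4⟩ := hFW z b (by omega) (PQ z q) (fun p hp => by
    obtain ⟨a1, a2, a3⟩ := Finset.mem_filter.mp hp
    exact ⟨a2, (Finset.mem_Icc.mp a1).2⟩)
  have hV := V_pos z q
  have hVe := V_eq hq hqz
  obtain ⟨V, hVd⟩ : ∃ V : ℝ, V = ∏ p ∈ PQ z q, (1 - 1 / (p : ℝ)) := ⟨_, rfl⟩
  rw [← hVd] at h2 h3 h4 hV hVe
  obtain ⟨D, hD⟩ : ∃ D : ℕ, D = z ^ (4 * b + 6) := ⟨_, rfl⟩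
  rw [← hD] at h2 h3 h4 hs ⊢
  obtain ⟨ε, hε⟩ : ∃ ε : ℝ, ε = CF * Real.exp (-b) := ⟨_, rfl⟩
  rw [← hε] at h3 h4
  have hε0 : 0 < ε := by rw [hε]; positivity
  have hq' : (0 : ℝ) < q := by exact_mod_cast hq
  have hY' : (0 : ℝ) < Y := by exact_mod_cast hY
  have hs1 : ∀ d, l d ≠ 0 → Nat.Coprime q d ∧ d ≤ D := fun d hd =>
    ⟨cop (hs d (Or.inl hd)).1, (hs d (Or.inl hd)).2⟩
  have hs2 : ∀ d, l' d ≠ 0 → Nat.Coprime q d ∧ d ≤ D := fun d hd =>
    ⟨cop (hs d (Or.inr hd)).1, (hs d (Or.inr hd)).2⟩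
  -- comparison of the sum with the sieve sum
  have hS : ∑ n ∈ (Ioc Y (2 * Y)).filter (fun n => n ≡ a [MOD q] ∧ rg z n), f n =
      ∑ n ∈ (Ioc Y (2 * Y)).filter (fun n => n ≡ a [MOD q]),
        ((if ∀ p ∈ PQ z q, ¬ p ∣ n then (1 : ℝ) else 0 : ℝ) : ℂ) * f n := by
    rw [← Finset.filter_filter, Finset.sum_filter]
    refine Finset.sum_congr rfl fun n hn => ?_
    obtain ⟨n1, n2⟩ := Finset.mem_filter.mp hn
    have hn0 : n ≠ 0 := by
      have := (Finset.mem_Ioc.mp n1).1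
      omega
    by_cases hr : rg z n
    · rw [if_pos hr, if_pos ((rg_iff hc hn0 n2).mp hr)]
      push_cast
      ring
    · rw [if_neg hr, if_neg (fun h => hr ((rg_iff hc hn0 n2).mpr h))]
      push_cast
      ring
  have hU := siv (a := a) hq hY hB hτ hf hv (fun d => (hl d).1) hs1
  have hT := siv1 (a := a) hq hY (fun d => (hl d).2) hs2
  have hdiff : ‖∑ n ∈ (Ioc Y (2 * Y)).filter (fun n => n ≡ a [MOD q] ∧ rg z n), f n -
      ∑ n ∈ (Ioc Y (2 * Y)).filter (fun n => n ≡ a [MOD q]),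
        ((∑ d ∈ n.divisors, l d : ℝ) : ℂ) * f n‖ ≤
      B * ∑ n ∈ (Ioc Y (2 * Y)).filter (fun n => n ≡ a [MOD q]), ∑ d ∈ n.divisors, l' d := by
    rw [hS, ← Finset.sum_sub_distrib, Finset.mul_sum]
    refine (norm_sum_le _ _).trans (Finset.sum_le_sum fun n hn => ?_)
    obtain ⟨n1, n2⟩ := Finset.mem_filter.mp hn
    have hn1 : 1 ≤ n := by
      have := (Finset.mem_Ioc.mp n1).1
      omega
    obtain ⟨k1, k2⟩ := h1 n hn1
    rw [← sub_mul, ← Complex.ofReal_sub, norm_mul, Complex.norm_real, Real.norm_eq_abs,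
      abs_sub_comm, abs_of_nonneg k1, mul_comm]
    exact mul_le_mul (hf n n1) k2 k1 hB
  have hSf : ‖∑ n ∈ Ioc Y (2 * Y), f n‖ ≤ Y * B := by
    refine (norm_sum_le _ _).trans ?_
    refine (Finset.sum_le_card_nsmul _ _ B hf).trans ?_
    rw [Nat.card_Ioc, nsmul_eq_mul]
    have : 2 * Y - Y = Y := by omega
    rw [this]
  have hmain : ‖(((1 / (q : ℝ)) * ∑ d ∈ Icc 1 D, l d / d : ℝ) : ℂ) * ∑ n ∈ Ioc Y (2 * Y), f n -
      ((Wz z / (Nat.totient q : ℝ) : ℝ) : ℂ) * ∑ n ∈ Ioc Y (2 * Y), f n‖ ≤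
      ε * (Wz z / (Nat.totient q : ℝ)) * (Y * B) := by
    rw [← sub_mul, ← Complex.ofReal_sub, norm_mul, Complex.norm_real, Real.norm_eq_abs, ← hVe,
      ← mul_sub]
    refine mul_le_mul ?_ hSf (norm_nonneg _) (by positivity)
    rw [abs_mul, abs_of_pos (by positivity : (0 : ℝ) < 1 / q), abs_of_nonneg (by linarith only [h2])]
    have h5 : ∑ d ∈ Icc 1 D, l d / d - V ≤ ε * V := by linarith only [h3]
    calc 1 / (q : ℝ) * (∑ d ∈ Icc 1 D, l d / d - V) ≤ 1 / (q : ℝ) * (ε * V) :=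
          mul_le_mul_of_nonneg_left h5 (by positivity)
      _ = ε * (1 / (q : ℝ) * V) := by ring
  have hT2 : B * ∑ n ∈ (Ioc Y (2 * Y)).filter (fun n => n ≡ a [MOD q]), ∑ d ∈ n.divisors, l' d ≤
      B * (ε * (Wz z / (Nat.totient q : ℝ)) * Y + D) := by
    refine mul_le_mul_of_nonneg_left (hT.trans ?_) hB
    have h6 : 1 / (q : ℝ) * (∑ d ∈ Icc 1 D, l' d / d) * Y ≤ 1 / (q : ℝ) * (ε * V) * Y :=
      mul_le_mul_of_nonneg_right (mul_le_mul_of_nonneg_left h4 (by positivity)) hY'.le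
    have h7 : 1 / (q : ℝ) * (ε * V) * Y = ε * (Wz z / (Nat.totient q : ℝ)) * Y := by
      rw [← hVe]; ring
    linarith only [h6, h7]
  have htri : ∀ A1 A2 A3 A4 : ℂ, ‖A1 - A4‖ ≤ ‖A1 - A2‖ + ‖A2 - A3‖ + ‖A3 - A4‖ := by
    intro A1 A2 A3 A4
    have : A1 - A4 = (A1 - A2) + (A2 - A3) + (A3 - A4) := by ring
    rw [this]
    exact norm_add₃_le
  refine (htri _ _ _ _).trans (((add_le_add (add_le_add (hdiff.trans hT2) hU) hmain)).trans ?_)
  rw [hε]
  have hD0 : (0 : ℝ) ≤ D := Nat.cast_nonneg _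
  have hx : 0 ≤ τ * B * D := by positivity
  nlinarith only [hx]

/-- the upper bound sieve -/
theorem bk3 {CF : ℝ} (hCF : 0 < CF) (hFW : ∀ z b : ℕ, 1 ≤ z → ∀ P : Finset ℕ,
  (∀ p ∈ P, p.Prime ∧ p ≤ z) → ∃ l l' : ℕ → ℝ, (∀ d, |l d| ≤ 1 ∧ |l' d| ≤ 1) ∧
    (∀ d, l d ≠ 0 ∨ l' d ≠ 0 → d ∣ ∏ p ∈ P, p ∧ d ≤ z ^ (4 * b + 6)) ∧
    (∀ n : ℕ, 1 ≤ n →
      0 ≤ ∑ d ∈ n.divisors, l d - (if ∀ p ∈ P, ¬ p ∣ n then 1 else 0) ∧
      ∑ d ∈ n.divisors, l d - (if ∀ p ∈ P, ¬ p ∣ n then 1 else 0) ≤ ∑ d ∈ n.divisors, l' d) ∧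
    ∏ p ∈ P, (1 - 1 / (p : ℝ)) ≤ ∑ d ∈ Icc 1 (z ^ (4 * b + 6)), l d / d ∧
    ∑ d ∈ Icc 1 (z ^ (4 * b + 6)), l d / d
      ≤ (1 + CF * Real.exp (-b)) * ∏ p ∈ P, (1 - 1 / (p : ℝ)) ∧
    ∑ d ∈ Icc 1 (z ^ (4 * b + 6)), l' d / d ≤ CF * Real.exp (-b) * ∏ p ∈ P, (1 - 1 / (p : ℝ)))
    {z z' q a Y : ℕ} (hz' : 1 ≤ z') (hzz : z' ≤ z) (hq : 1 ≤ q) (hY : 1 ≤ Y) :
    (((Ioc Y (2 * Y)).filter (fun n => n ≡ a [MOD q] ∧ rg z n)).card : ℝ) ≤
      (1 + CF) * (Wz z' / (Nat.totient q : ℝ)) * Y + ((z' ^ 6 : ℕ) : ℝ) := by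
  obtain ⟨l, l', hl, hs, h1, h2, h3, h4⟩ := hFW z' 0 hz' (PQ z' q) (fun p hp => by
    obtain ⟨a1, a2, a3⟩ := Finset.mem_filter.mp hp
    exact ⟨a2, (Finset.mem_Icc.mp a1).2⟩)
  simp only [mul_zero, zero_add, Nat.cast_zero, neg_zero, Real.exp_zero, mul_one] at hs h2 h3
  have hV := V_le (z := z') hq
  have hs1 : ∀ d, l d ≠ 0 → Nat.Coprime q d ∧ d ≤ z' ^ 6 := fun d hd =>
    ⟨cop (hs d (Or.inl hd)).1, (hs d (Or.inl hd)).2⟩
  have hT := siv1 (a := a) hq hY (fun d => (hl d).1) hs1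
  have hq' : (0 : ℝ) < q := by exact_mod_cast hq
  have hY' : (0 : ℝ) < Y := by exact_mod_cast hY
  have hc : (((Ioc Y (2 * Y)).filter (fun n => n ≡ a [MOD q] ∧ rg z n)).card : ℝ) ≤
      ∑ n ∈ (Ioc Y (2 * Y)).filter (fun n => n ≡ a [MOD q]), ∑ d ∈ n.divisors, l d := by
    rw [← Finset.filter_filter, Finset.card_filter, Nat.cast_sum]
    refine Finset.sum_le_sum fun n hn => ?_
    obtain ⟨n1, n2⟩ := Finset.mem_filter.mp hn
    have hn1 : 1 ≤ n := by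
      have := (Finset.mem_Ioc.mp n1).1
      omega
    obtain ⟨k1, k2⟩ := h1 n hn1
    by_cases hr : rg z n
    · rw [if_pos hr]
      rw [if_pos (rg_imp hzz hr)] at k1
      push_cast
      linarith only [k1]
    · rw [if_neg hr]
      have h0 : (0 : ℝ) ≤ (if ∀ p ∈ PQ z' q, ¬ p ∣ n then (1 : ℝ) else 0) := by
        split_ifs <;> norm_num
      push_cast
      linarith only [k1, h0]
  refine hc.trans (hT.trans ?_)
  have h6 : 1 / (q : ℝ) * (∑ d ∈ Icc 1 (z' ^ 6), l d / d) * Y ≤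
      1 / (q : ℝ) * ((1 + CF) * ∏ p ∈ PQ z' q, (1 - 1 / (p : ℝ))) * Y :=
    mul_le_mul_of_nonneg_right (mul_le_mul_of_nonneg_left h3 (by positivity)) hY'.le
  have h7 : 1 / (q : ℝ) * ((1 + CF) * ∏ p ∈ PQ z' q, (1 - 1 / (p : ℝ))) * Y =
      (1 + CF) * (1 / (q : ℝ) * ∏ p ∈ PQ z' q, (1 - 1 / (p : ℝ))) * Y := by ring
  have h8 : (1 + CF) * (1 / (q : ℝ) * ∏ p ∈ PQ z' q, (1 - 1 / (p : ℝ))) * Y ≤
      (1 + CF) * (Wz z' / (Nat.totient q : ℝ)) * Y :=
    mul_le_mul_of_nonneg_right (mul_le_mul_of_nonneg_left hV (by positivity)) hY'.le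
  linarith only [h6, h8]

theorem bk (h : StmtFW) : StmtBK := by
  obtain ⟨CF, hCF, hFW⟩ := h
  obtain ⟨CM, hCM, hMP⟩ := Pool.Agent.Helper37.PP.mp
  have hW : ∀ t : ℕ, 2 ≤ t → Wz t ≤ CM / Real.log t := fun t ht =>
    Pool.Agent.Helper73.RR.prod_le hMP hCM t ht
  refine ⟨2 * CF * Real.exp (5 / 2) * CM +
    Real.exp (3 / 2) * (CM + 48 * (1 + CF) * CM + 48) + 2, 1 / 8, by positivity, by norm_num, ?_⟩
  intro z q a Y hz hq hqz hc hzY f B τ hB hτ hf hv
  have hY : 1 ≤ Y := by omega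
  have hq' : (0 : ℝ) < q := by exact_mod_cast hq
  have hY' : (1 : ℝ) ≤ Y := by exact_mod_cast hY
  have hz2 : (2 : ℝ) ≤ z := by exact_mod_cast hz
  have hlz : 0 < Real.log z := Real.log_pos (by linarith only [hz2])
  have ht : (0 : ℝ) < Nat.totient q := by exact_mod_cast Nat.totient_pos.mpr hq
  have htq : (Nat.totient q : ℝ) ≤ q := by exact_mod_cast Nat.totient_le q
  have hqz1 : q ≤ z := (Nat.le_self_pow (by norm_num) q).trans hqz
  -- the fourth root of `Y`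
  obtain ⟨u, hu⟩ : ∃ u : ℝ, u = (Y : ℝ) ^ (1 / 4 : ℝ) := ⟨_, rfl⟩
  have hu0 : 0 < u := by rw [hu]; positivity
  have hu4 : u ^ 4 = Y := by
    rw [hu, ← Real.rpow_natCast, ← Real.rpow_mul (by positivity)]
    norm_num
  have hu1 : 1 ≤ u := by
    by_contra hcon
    push Not at hcon
    have : u ^ 4 < 1 := pow_lt_one₀ hu0.le hcon (by norm_num)
    linarith only [hY', hu4, this]
  have hqu : (q : ℝ) ≤ u := by
    have h1 : (q : ℝ) ^ 4 ≤ u ^ 4 := by
      rw [hu4]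
      have : q ^ 4 ≤ Y := (Nat.pow_le_pow_right hq (by norm_num)).trans (hqz.trans hzY)
      exact_mod_cast this
    exact le_of_pow_le_pow_left₀ (by norm_num) hu0.le h1
  have hinv : (Y : ℝ) ^ (-(1 / 4) : ℝ) = u⁻¹ := by
    rw [Real.rpow_neg (by positivity), hu]
  -- `u ^ 2 ≤ (Y / φ) / u`
  have hfin : u ^ 2 ≤ (Y / (Nat.totient q : ℝ)) * (Y : ℝ) ^ (-(1 / 4) : ℝ) := by
    rw [hinv, ← hu4, ← div_eq_mul_inv, div_div, le_div_iff₀ (by positivity)]
    have : u ^ 2 * ((Nat.totient q : ℝ) * u) ≤ u ^ 2 * (u * u) :=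
      mul_le_mul_of_nonneg_left (mul_le_mul_of_nonneg_right (htq.trans hqu) hu0.le) (by positivity)
    nlinarith only [this]
  have hWz := hW z hz
  have hR : 0 ≤ (Y / (Nat.totient q : ℝ)) := by positivity
  obtain ⟨R, hRd⟩ : ∃ R : ℝ, R = Y / (Nat.totient q : ℝ) := ⟨_, rfl⟩
  obtain ⟨E2, hE2⟩ : ∃ E : ℝ, E = (Y : ℝ) ^ (-(1 / 4) : ℝ) := ⟨_, rfl⟩
  have hE20 : 0 < E2 := by rw [hE2]; positivity
  rw [← hRd, ← hE2] at hfin
  rw [← hRd] at hR
  have hWR : (Wz z / (Nat.totient q : ℝ)) * Y ≤ CM / Real.log z * R := by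
    rw [hRd]
    have : (Wz z / (Nat.totient q : ℝ)) * Y = Wz z * (Y / (Nat.totient q : ℝ)) := by ring
    rw [this]
    exact mul_le_mul_of_nonneg_right hWz (by positivity)
  rw [← hRd, ← hE2]
  obtain ⟨x, hx⟩ : ∃ x : ℝ, x = Real.log Y / Real.log z := ⟨_, rfl⟩
  rw [← hx]
  have hxz : x * Real.log z = Real.log Y := by rw [hx]; field_simp
  rcases le_or_gt 12 x with h12 | h12
  · -- long intervals
    obtain ⟨b, hb⟩ : ∃ b : ℕ, b = ⌊(x - 12) / 8⌋₊ := ⟨_, rfl⟩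
    have hb1 : (b : ℝ) ≤ (x - 12) / 8 := by
      rw [hb]; exact Nat.floor_le (by linarith only [h12])
    have hb2 : (x - 12) / 8 < b + 1 := by
      rw [hb]; exact Nat.lt_floor_add_one _
    have hk := bk2 hCF hFW b hz hq hqz1 hc hY hB hτ hf hv
    have hD : ((z ^ (4 * b + 6) : ℕ) : ℝ) ≤ u ^ 2 := by
      have h1 : (((z ^ (4 * b + 6) : ℕ) : ℝ)) ^ 2 ≤ (u ^ 2) ^ 2 := by
        rw [← pow_mul, show 2 * 2 = 4 by norm_num, hu4]
        have h2 : (((z ^ (4 * b + 6) : ℕ) : ℝ)) ^ 2 = (z : ℝ) ^ ((8 * b + 12 : ℕ)) := by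
          push_cast
          rw [← pow_mul]
          congr 1
          ring
        rw [h2, ← Real.log_le_log_iff (by positivity) (by positivity), Real.log_pow, ← hxz]
        refine mul_le_mul_of_nonneg_right ?_ hlz.le
        push_cast
        linarith only [hb1]
      exact le_of_pow_le_pow_left₀ (by norm_num) (by positivity) h1
    have he : Real.exp (-b) ≤ Real.exp (5 / 2) * Real.exp (-(1 / 8 * x)) := by
      rw [← Real.exp_add]
      exact Real.exp_le_exp.mpr (by linarith only [hb2])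
    refine hk.trans ?_
    have t1 : 2 * CF * Real.exp (-b) * (Wz z / (Nat.totient q : ℝ)) * Y * B ≤
        (2 * CF * Real.exp (5 / 2) * CM) * (B * R * (Real.exp (-(1 / 8 * x)) / Real.log z)) := by
      calc 2 * CF * Real.exp (-b) * (Wz z / (Nat.totient q : ℝ)) * Y * B
          = (2 * CF * B) * (Real.exp (-b) * ((Wz z / (Nat.totient q : ℝ)) * Y)) := by ring
        _ ≤ (2 * CF * B) * ((Real.exp (5 / 2) * Real.exp (-(1 / 8 * x))) *
            (CM / Real.log z * R)) := by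
            refine mul_le_mul_of_nonneg_left (mul_le_mul he hWR ?_ (by positivity)) (by positivity)
            have := (Wz_pos z).le
            positivity
        _ = _ := by ring
    have t2 : 2 * (1 + τ) * B * ((z ^ (4 * b + 6) : ℕ) : ℝ) ≤ 2 * (B * R * ((1 + τ) * E2)) := by
      calc 2 * (1 + τ) * B * ((z ^ (4 * b + 6) : ℕ) : ℝ) ≤ 2 * (1 + τ) * B * (R * E2) :=
            mul_le_mul_of_nonneg_left (hD.trans hfin) (by positivity)
        _ = _ := by ring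
    have p1 : 0 ≤ B * R * (Real.exp (-(1 / 8 * x)) / Real.log z) := by positivity
    have p2 : 0 ≤ B * R * ((1 + τ) * E2) := by positivity
    have p3 : 0 ≤ Real.exp (3 / 2) * (CM + 48 * (1 + CF) * CM + 48) := by positivity
    have p4 : 0 ≤ 2 * CF * Real.exp (5 / 2) * CM := by positivity
    have e1 : ∀ K : ℝ, K * B * R * (Real.exp (-(1 / 8 * x)) / Real.log z + (1 + τ) * E2) =
        K * (B * R * (Real.exp (-(1 / 8 * x)) / Real.log z)) + K * (B * R * ((1 + τ) * E2)) := by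
      intro K; ring
    rw [e1]
    have g1 := mul_le_mul_of_nonneg_right (show 2 * CF * Real.exp (5 / 2) * CM ≤
      2 * CF * Real.exp (5 / 2) * CM +
        Real.exp (3 / 2) * (CM + 48 * (1 + CF) * CM + 48) + 2 by linarith only [p3]) p1
    have g2 := mul_le_mul_of_nonneg_right (show 2 ≤ 2 * CF * Real.exp (5 / 2) * CM +
        Real.exp (3 / 2) * (CM + 48 * (1 + CF) * CM + 48) + 2 by linarith only [p3, p4]) p2
    linarith only [t1, t2, g1, g2]
  · -- short intervals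
    have hSf : ‖∑ n ∈ Ioc Y (2 * Y), f n‖ ≤ Y * B := by
      refine (norm_sum_le _ _).trans ?_
      refine (Finset.sum_le_card_nsmul _ _ B hf).trans ?_
      rw [Nat.card_Ioc, nsmul_eq_mul]
      have : 2 * Y - Y = Y := by omega
      rw [this]
    have hc1 : (((Ioc Y (2 * Y)).filter (fun n => n ≡ a [MOD q] ∧ rg z n)).card : ℝ) ≤
        (48 * (1 + CF) * CM + 48) / Real.log z * R + R * E2 := by
      rcases le_or_gt (2 ^ 24) z with hbig | hsmall
      · obtain ⟨z', hz'⟩ : ∃ z' : ℕ, z' = ⌊(z : ℝ) ^ (1 / 24 : ℝ)⌋₊ := ⟨_, rfl⟩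
        obtain ⟨r, hr⟩ : ∃ r : ℝ, r = (z : ℝ) ^ (1 / 24 : ℝ) := ⟨_, rfl⟩
        have hr0 : 0 < r := by rw [hr]; positivity
        have hr24 : r ^ 24 = z := by
          rw [hr, ← Real.rpow_natCast, ← Real.rpow_mul (by positivity)]
          norm_num
        have hr2 : 2 ≤ r := by
          have h1 : (2 : ℝ) ^ 24 ≤ r ^ 24 := by
            rw [hr24]; exact_mod_cast hbig
          exact le_of_pow_le_pow_left₀ (by norm_num) hr0.le h1
        rw [← hr] at hz'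
        have hz'r : (z' : ℝ) ≤ r := by rw [hz']; exact Nat.floor_le hr0.le
        have hz'r2 : r < z' + 1 := by rw [hz']; exact Nat.lt_floor_add_one r
        have hz'2 : 2 ≤ z' := by
          rw [hz']
          exact Nat.le_floor (by exact_mod_cast hr2)
        have hz'2r : (2 : ℝ) ≤ z' := by exact_mod_cast hz'2
        have hz'z : z' ≤ z := by
          have h1 : (z' : ℝ) ≤ z := by
            refine hz'r.trans ?_
            rw [← hr24]
            exact le_self_pow₀ (by linarith only [hr2]) (by norm_num)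
          exact_mod_cast h1
        have hk := bk3 hCF hFW (a := a) (by omega : 1 ≤ z') hz'z hq hY
        have hlog : Real.log z ≤ 48 * Real.log z' := by
          rw [← hr24, Real.log_pow]
          have h1 : Real.log r ≤ 2 * Real.log z' := by
            have h2 : r ≤ (z' : ℝ) ^ 2 := by nlinarith only [hz'r2, hz'2r, hr2]
            have h3 := Real.log_le_log hr0 h2
            rw [Real.log_pow] at h3
            exact_mod_cast h3
          push_cast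
          linarith only [h1]
        have hlz' : 0 < Real.log z' := Real.log_pos (by linarith only [hr2, hz'r2])
        have hW' : Wz z' ≤ 48 * CM / Real.log z := by
          refine (hW z' hz'2).trans ?_
          rw [div_le_div_iff₀ hlz' hlz]
          nlinarith only [hCM, hlog]
        have hD6 : ((z' ^ 6 : ℕ) : ℝ) ≤ R * E2 := by
          refine le_trans ?_ hfin
          have h1 : ((z' ^ 6 : ℕ) : ℝ) ≤ u := by
            have h2 : (((z' ^ 6 : ℕ) : ℝ)) ^ 4 ≤ u ^ 4 := by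
              rw [hu4]
              push_cast
              rw [← pow_mul]
              calc (z' : ℝ) ^ (6 * 4) ≤ r ^ (6 * 4) := pow_le_pow_left₀ (by positivity) hz'r _
                _ = z := by rw [← hr24]
                _ ≤ Y := by exact_mod_cast hzY
            exact le_of_pow_le_pow_left₀ (by norm_num) hu0.le h2
          nlinarith only [h1, hu0, hu1]
        refine hk.trans (add_le_add ?_ hD6)
        calc (1 + CF) * (Wz z' / (Nat.totient q : ℝ)) * Y = (1 + CF) * (Wz z' * R) := by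
              rw [hRd]; ring
          _ ≤ (1 + CF) * (48 * CM / Real.log z * R) :=
              mul_le_mul_of_nonneg_left (mul_le_mul_of_nonneg_right hW' hR) (by positivity)
          _ ≤ (48 * (1 + CF) * CM + 48) / Real.log z * R := by
              have : (48 * (1 + CF) * CM + 48) / Real.log z * R =
                (1 + CF) * (48 * CM / Real.log z * R) + 48 / Real.log z * R := by ring
              rw [this]
              have : 0 ≤ 48 / Real.log z * R := by positivity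
              linarith only [this]
      · have h1 : (((Ioc Y (2 * Y)).filter (fun n => n ≡ a [MOD q] ∧ rg z n)).card : ℝ) ≤
            (((Ioc Y (2 * Y)).filter (fun n => n ≡ a [MOD q])).card : ℝ) := by
          rw [← Finset.filter_filter]
          exact_mod_cast Finset.card_filter_le _ _
        have h2 := (abs_le.mp (cnt hq a Y (2 * Y) (by omega))).2
        have h3 : (((Ioc Y (2 * Y)).filter (fun n => n ≡ a [MOD q])).card : ℝ) ≤ Y / q + 1 := by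
          push_cast at h2
          have : ((2 : ℝ) * Y - Y) / q = Y / q := by ring
          rw [this] at h2
          linarith only [h2]
        have h4 : (Y : ℝ) / q ≤ R := by
          rw [hRd]
          exact div_le_div_of_nonneg_left (by positivity) ht htq
        have h5 : 1 ≤ R := by
          rw [hRd, le_div_iff₀ ht, one_mul]
          have : (Nat.totient q : ℝ) ≤ Y := by
            exact_mod_cast (Nat.totient_le q).trans (hqz1.trans hzY)
          exact this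
        have h6 : Real.log z ≤ 24 := by
          have h7 : (z : ℝ) ≤ 2 ^ 24 := by exact_mod_cast hsmall.le
          have h8 := Real.log_le_log (by linarith only [hz2]) h7
          rw [Real.log_pow] at h8
          have h9 : Real.log 2 < 1 := by
            have := Real.log_two_lt_d9
            linarith only [this]
          push_cast at h8
          linarith only [h8, h9]
        have h7 : 2 * R ≤ 48 / Real.log z * R := by
          refine mul_le_mul_of_nonneg_right ?_ hR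
          rw [le_div_iff₀ hlz]
          linarith only [h6]
        have h8 : 48 / Real.log z * R ≤ (48 * (1 + CF) * CM + 48) / Real.log z * R := by
          refine mul_le_mul_of_nonneg_right ?_ hR
          refine div_le_div_of_nonneg_right ?_ hlz.le
          have : 0 ≤ 48 * (1 + CF) * CM := by positivity
          linarith only [this]
        have h9 : 0 ≤ R * E2 := by positivity
        linarith only [h1, h3, h4, h5, h7, h8, h9]
    have hS : ‖∑ n ∈ (Ioc Y (2 * Y)).filter (fun n => n ≡ a [MOD q] ∧ rg z n), f n‖ ≤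
        ((48 * (1 + CF) * CM + 48) / Real.log z * R + R * E2) * B := by
      refine (norm_sum_le _ _).trans ?_
      refine (Finset.sum_le_card_nsmul _ _ B fun n hn => hf n (Finset.mem_filter.mp hn).1).trans ?_
      rw [nsmul_eq_mul]
      exact mul_le_mul_of_nonneg_right hc1 hB
    have hM : ‖((Wz z / (Nat.totient q : ℝ) : ℝ) : ℂ) * ∑ n ∈ Ioc Y (2 * Y), f n‖ ≤
        CM / Real.log z * R * B := by
      have hw0 := (Wz_pos z).le
      rw [norm_mul, Complex.norm_real, Real.norm_eq_abs, abs_of_nonneg (by positivity)]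
      calc Wz z / (Nat.totient q : ℝ) * ‖∑ n ∈ Ioc Y (2 * Y), f n‖
          ≤ Wz z / (Nat.totient q : ℝ) * (Y * B) :=
            mul_le_mul_of_nonneg_left hSf (by positivity)
        _ = (Wz z / (Nat.totient q : ℝ) * Y) * B := by ring
        _ ≤ CM / Real.log z * R * B := mul_le_mul_of_nonneg_right hWR hB
    refine (norm_sub_le _ _).trans ((add_le_add hS hM).trans ?_)
    have he : 1 ≤ Real.exp (3 / 2) * Real.exp (-(1 / 8 * x)) := by
      rw [← Real.exp_add, Real.one_le_exp_iff]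
      linarith only [h12]
    obtain ⟨E1, hE1⟩ : ∃ E : ℝ, E = Real.exp (-(1 / 8 * x)) := ⟨_, rfl⟩
    rw [← hE1] at he ⊢
    have hE10 : 0 < E1 := by rw [hE1]; positivity
    have p0 : 0 ≤ B * R := by positivity
    have p1 : 0 ≤ B * R * (E1 / Real.log z) := by positivity
    have p2 : 0 ≤ B * R * ((1 + τ) * E2) := by positivity
    have p3 : 0 ≤ Real.exp (3 / 2) * (CM + 48 * (1 + CF) * CM + 48) := by positivity
    have p4 : 0 ≤ 2 * CF * Real.exp (5 / 2) * CM := by positivity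
    have e1 : ∀ K : ℝ, K * B * R * (E1 / Real.log z + (1 + τ) * E2) =
        K * (B * R * (E1 / Real.log z)) + K * (B * R * ((1 + τ) * E2)) := by
      intro K; ring
    rw [e1]
    have g1 := mul_le_mul_of_nonneg_right (show
      Real.exp (3 / 2) * (CM + 48 * (1 + CF) * CM + 48) ≤ 2 * CF * Real.exp (5 / 2) * CM +
        Real.exp (3 / 2) * (CM + 48 * (1 + CF) * CM + 48) + 2 by linarith only [p4]) p1
    have g2 := mul_le_mul_of_nonneg_right (show 1 ≤ 2 * CF * Real.exp (5 / 2) * CM +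
        Real.exp (3 / 2) * (CM + 48 * (1 + CF) * CM + 48) + 2 by linarith only [p3, p4]) p2
    have g3 : ((48 * (1 + CF) * CM + 48) / Real.log z * R + R * E2) * B +
        CM / Real.log z * R * B =
        (CM + 48 * (1 + CF) * CM + 48) / Real.log z * (B * R) * 1 + B * R * E2 := by ring
    have g4 : (CM + 48 * (1 + CF) * CM + 48) / Real.log z * (B * R) * 1 ≤
        (CM + 48 * (1 + CF) * CM + 48) / Real.log z * (B * R) * (Real.exp (3 / 2) * E1) :=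
      mul_le_mul_of_nonneg_left he (by positivity)
    have g5 : (CM + 48 * (1 + CF) * CM + 48) / Real.log z * (B * R) * (Real.exp (3 / 2) * E1) =
        Real.exp (3 / 2) * (CM + 48 * (1 + CF) * CM + 48) * (B * R * (E1 / Real.log z)) := by ring
    have g6 : B * R * E2 ≤ 1 * (B * R * ((1 + τ) * E2)) := by
      have : 0 ≤ B * R * (τ * E2) := by positivity
      nlinarith only [this]
    linarith only [g1, g2, g3, g4, g5, g6]

end Pool.Agent.Helper94.CR
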